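import Pool.Agent.H59.K3.Main

/-!
MP_a985a5_al, question Q1, dimension four. `PD4 G`: `G` is a Poincaré duality group of dimension 4 over `F₂`, for
example the fundamental group of a closed hyperbolic 4-manifold. `Kills G'`: the restriction
`H³(G, F₂) → H³(G', F₂)` is zero. `b1 N = dim Hom(N, F₂)`. `Large G`: a subgroup of finite index maps onto a free
group of rank two. The definitions are in `Pool/Agent/H59/K3/Defs.lean`.

Method: by duality the restriction is zero if the mod 2 transfer `H₁(G) → H₁(G')` is zero, which is tested by group
ring derivations. (1) is the determinant argument of the principal ideal theorem; in (2) a nonzero transfer gives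
`|H/N| + |H/N|/2` independent derivations; in (3) unbounded Betti numbers of cyclic covers give two cocycles with
disjoint supports, one integral and one mod 2, hence a map onto a large group.
-/

namespace Pool.Agent.Results.MP_a985a5_al.DimensionFour

open Pool.K3H

theorem result (G : Type) [Group G] (hG : Nonempty (PD4 G))
    (h : (∃ H : Subgroup G, H.FiniteIndex ∧ Finite (Abelianization H)) ∨
      (∃ (H : Subgroup G) (N : Subgroup H) (_ : N.Normal), H.FiniteIndex ∧ N.FiniteIndex ∧
        IsPGroup 2 (H ⧸ N) ∧ ¬ IsCyclic (H ⧸ N) ∧ 2 * b1 N ≤ N.index) ∨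
      (Group.IsFinitelyPresented G ∧ ¬ Large G ∧ ∃ H : Subgroup G, H.FiniteIndex ∧ 2 ≤ b1 H)) :
    ∃ G' : Subgroup G, G'.FiniteIndex ∧ Kills G' :=
  main hG h

end Pool.Agent.Results.MP_a985a5_al.DimensionFour
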